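import Mathlib
import Pool.Agent.Lib.MP_814f17_an.Series

set_option autoImplicit false

namespace Pool.Agent.Results.MP_814f17_an.Voronovskaja

/-- The bivariate Bernstein polynomial on the simplex, at complex arguments. -/
noncomputable def bernstein (n : ℕ) (f : ℂ × ℂ → ℂ) (w₁ w₂ : ℂ) : ℂ :=
  ∑ k ∈ Finset.range (n + 1), ∑ j ∈ Finset.range (n + 1 - k),
    ((n.factorial : ℂ) / ((k.factorial : ℂ) * (j.factorial : ℂ) * ((n - k - j).factorial : ℂ))) *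
      w₁ ^ k * w₂ ^ j * (1 - w₁ - w₂) ^ (n - k - j) * f ((k : ℂ) / (n : ℂ), (j : ℂ) / (n : ℂ))

/-- The Voronovskaja remainder. -/
noncomputable def remainder (n : ℕ) (f : ℂ × ℂ → ℂ) (w₁ w₂ : ℂ) : ℂ :=
  bernstein n f w₁ w₂ - f (w₁, w₂) - (1 / (2 * (n : ℂ))) *
    (w₁ * (1 - w₁) * deriv (deriv fun z : ℂ => f (z, w₂)) w₁
      - 2 * w₁ * w₂ * deriv (fun z₁ : ℂ => deriv (fun z₂ : ℂ => f (z₁, z₂)) w₂) w₁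
      + w₂ * (1 - w₂) * deriv (deriv fun z : ℂ => f (w₁, z)) w₂)

theorem result (R₁ R₂ : ℝ) (_hR₁ : 1 < R₁) (_hR₂ : 1 < R₂) (f : ℂ × ℂ → ℂ)
    (hf : AnalyticOnNhd ℂ f (Metric.ball (0 : ℂ) R₁ ×ˢ Metric.ball (0 : ℂ) R₂) ∨
      ∃ a : ℕ → ℕ → ℂ, ∀ w₁ w₂ : ℂ, ‖w₁‖ < R₁ → ‖w₂‖ < R₂ →
        HasSum (fun i : ℕ × ℕ => a i.1 i.2 * w₁ ^ i.1 * w₂ ^ i.2) (f (w₁, w₂)))
    (ρ₁ ρ₂ : ℝ) (h₁ : 1 ≤ ρ₁) (h₁' : ρ₁ < R₁) (h₂ : 1 ≤ ρ₂) (h₂' : ρ₂ < R₂) :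
    ∃ C : ℝ, ∀ n : ℕ, 1 ≤ n → ∀ w₁ w₂ : ℂ, ‖w₁‖ ≤ ρ₁ → ‖w₂‖ ≤ ρ₂ →
      ‖remainder n f w₁ w₂‖ ≤ C / (n : ℝ) ^ 2 := by
  obtain ⟨a, ha⟩ : ∃ a, Pool.Agent.Lib.MP_814f17_an.Rep R₁ R₂ a f := by
    rcases hf with hf | hf
    · exact Pool.Agent.Lib.MP_814f17_an.exists_rep hf
    · exact hf
  exact ha.main h₁ h₂ h₁' h₂'

end Pool.Agent.Results.MP_814f17_an.Voronovskaja
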